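import Pool.Agent.H28.VM.Targets

/-!
# Square membrane (MP_71a28e_an): module DECAY
-/

set_option autoImplicit false

open MeasureTheory FourierTransform
open scoped RealInnerProductSpace SchwartzMap

namespace Pool.Agent.H15.VM

open Pool.Agent.H28.VM

/-- the plane with its Euclidean norm -/
abbrev PL : Type := WithLp 2 (ℝ × ℝ)

/-- the radial cutoff on the plane -/
noncomputable def fh (h : ℝ → ℝ) (x : PL) : ℂ := (h (x.fst ^ 2 + x.snd ^ 2) : ℂ)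

theorem inner_PL (x y : PL) : ⟪x, y⟫ = x.fst * y.fst + x.snd * y.snd := by
  rw [WithLp.prod_inner_apply]
  simp [mul_comm]

theorem norm_sq_PL (x : PL) : ‖x‖ ^ 2 = x.fst ^ 2 + x.snd ^ 2 := by
  rw [← real_inner_self_eq_norm_sq, inner_PL]; ring

theorem fh_eq (h : ℝ → ℝ) (x : PL) : fh h x = (h (‖x‖ ^ 2) : ℂ) := by
  rw [fh, norm_sq_PL]

theorem fh_contDiff {h : ℝ → ℝ} (hh : Cut h) : ContDiff ℝ (⊤ : ℕ∞) (fh h) := by
  have e : fh h = fun x => Complex.ofRealCLM (h (‖x‖ ^ 2)) := by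
    funext x; rw [fh_eq]; rfl
  rw [e]
  exact Complex.ofRealCLM.contDiff.comp (hh.smooth.comp (contDiff_norm_sq ℝ))

theorem fh_compact {h : ℝ → ℝ} (hh : Cut h) : HasCompactSupport (fh h) := by
  refine HasCompactSupport.intro (isCompact_closedBall (0 : PL) 2) ?_
  intro x hx
  rw [Metric.mem_closedBall, dist_zero_right, not_le] at hx
  rw [fh_eq, hh.zero, Complex.ofReal_zero]
  nlinarith

/-- the cutoff as a Schwartz function -/
noncomputable def sh' {h : ℝ → ℝ} (hh : Cut h) : 𝓢(PL, ℂ) :=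
  (fh_compact hh).toSchwartzMap (fh_contDiff hh)

/-- the frequency vector `-k/(2π)` -/
noncomputable def fv (k : ℤ × ℤ) : PL :=
  WithLp.toLp 2 (-(k.1 : ℝ) / (2 * Real.pi), -(k.2 : ℝ) / (2 * Real.pi))

theorem fv_fst (k : ℤ × ℤ) : (fv k).fst = -(k.1 : ℝ) / (2 * Real.pi) := rfl
theorem fv_snd (k : ℤ × ℤ) : (fv k).snd = -(k.2 : ℝ) / (2 * Real.pi) := rfl

theorem fv_norm (k : ℤ × ℤ) : nm k = 2 * Real.pi * ‖fv k‖ := by
  have hp := Real.pi_pos
  have h1 : nm k ^ 2 = (2 * Real.pi * ‖fv k‖) ^ 2 := by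
    rw [mul_pow, norm_sq_PL, fv_fst, fv_snd, nm, Real.sq_sqrt (by positivity)]
    field_simp
  exact (sq_eq_sq₀ (show 0 ≤ nm k from Real.sqrt_nonneg _) (by positivity)).1 h1

theorem ft_eq {h : ℝ → ℝ} (hh : Cut h) (k : ℤ × ℤ) : ft h k = (𝓕 (sh' hh)) (fv k) := by
  rw [SchwartzMap.fourier_coe, Real.fourier_eq', ft]
  rw [← (WithLp.volume_preserving_toLp ℝ ℝ).integral_comp'
    (f := MeasurableEquiv.toLp 2 (ℝ × ℝ))]
  refine integral_congr_ae (Filter.Eventually.of_forall fun z => ?_)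
  have hp := Real.pi_ne_zero
  have e1 : (MeasurableEquiv.toLp 2 (ℝ × ℝ) z).fst = z.1 := rfl
  have e2 : (MeasurableEquiv.toLp 2 (ℝ × ℝ) z).snd = z.2 := rfl
  have e3 : (sh' hh) (MeasurableEquiv.toLp 2 (ℝ × ℝ) z) = (h (z.1 ^ 2 + z.2 ^ 2) : ℂ) := rfl
  simp only [smul_eq_mul, ee, dt]
  rw [e3, mul_comm, inner_PL, e1, e2, fv_fst, fv_snd]
  congr 4
  field_simp
  ring

theorem decay : T_decay := by
  intro h hh i
  obtain ⟨C, -, hC⟩ := (𝓕 (sh' hh)).decay i 0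
  refine ⟨(2 * Real.pi) ^ i * C, fun k => ?_⟩
  have h1 := hC (fv k)
  rw [norm_iteratedFDeriv_zero] at h1
  rw [ft_eq hh, fv_norm, mul_pow]
  calc ‖(𝓕 (sh' hh)) (fv k)‖ * ((2 * Real.pi) ^ i * ‖fv k‖ ^ i)
      = (2 * Real.pi) ^ i * (‖fv k‖ ^ i * ‖(𝓕 (sh' hh)) (fv k)‖) := by ring
    _ ≤ (2 * Real.pi) ^ i * C := by gcongr

end Pool.Agent.H15.VM
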