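import Pool.Agent.H22.VM.Targets

/-!
# VM modules EX, F1, BO (helper15)
-/

set_option autoImplicit false

open Finset Polynomial Pool.Agent.H22.VM

namespace Pool.Agent.H15.VM

theorem e_eq (x : ℝ) : e x = Complex.exp (((2 * Real.pi * x : ℝ) : ℂ) * Complex.I) := by
  unfold e
  push_cast
  rfl

theorem norm_e (x : ℝ) : ‖e x‖ = 1 := by
  rw [e_eq]
  exact Complex.norm_exp_ofReal_mul_I _

theorem e_add (x y : ℝ) : e (x + y) = e x * e y := by
  unfold e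
  rw [← Complex.exp_add]
  congr 1
  push_cast
  ring

theorem e_int (m : ℤ) : e (m : ℝ) = 1 := by
  unfold e
  have h := Complex.exp_int_mul_two_pi_mul_I m
  rw [← h]
  congr 1
  push_cast
  ring

theorem e_neg (x : ℝ) : e (-x) = (starRingEnd ℂ) (e x) := by
  rw [e_eq, e_eq, ← Complex.exp_conj]
  congr 1
  rw [map_mul, Complex.conj_ofReal, Complex.conj_I]
  push_cast
  ring

theorem e_zero : e 0 = 1 := by
  have := e_int 0
  simpa using this

theorem e_nat_mul (n : ℕ) (x : ℝ) : e (n * x) = e x ^ n := by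
  induction n with
  | zero => simp [e_zero]
  | succ n ih =>
    rw [pow_succ, ← ih, ← e_add]
    congr 1
    push_cast
    ring

theorem e_eq_one {x : ℝ} (h : e x = 1) : ∃ n : ℤ, x = n := by
  unfold e at h
  obtain ⟨n, hn⟩ := Complex.exp_eq_one_iff.1 h
  refine ⟨n, ?_⟩
  have h1 : (2 * Real.pi * Complex.I : ℂ) ≠ 0 := Complex.two_pi_I_ne_zero
  have h2 : (x : ℂ) * (2 * Real.pi * Complex.I) = n * (2 * Real.pi * Complex.I) := by
    rw [← hn]; ring
  have h3 := mul_right_cancel₀ h1 h2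
  exact_mod_cast h3

theorem e_sum (q : ℕ) (m : ℤ) (hq : 0 < q) :
    ∑ h ∈ range q, e ((((h : ℤ) * m : ℤ) : ℝ) / (q : ℝ)) = if (q : ℤ) ∣ m then (q : ℂ) else 0 := by
  have hq' : (q : ℝ) ≠ 0 := by positivity
  have h1 : ∀ h ∈ range q, e ((((h : ℤ) * m : ℤ) : ℝ) / (q : ℝ)) = e ((m : ℝ) / q) ^ h := by
    intro h _
    rw [← e_nat_mul]
    congr 1
    push_cast
    ring
  rw [sum_congr rfl h1]
  split_ifs with hd
  · obtain ⟨c, rfl⟩ := hd
    have h2 : e (((q * c : ℤ) : ℝ) / q) = 1 := by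
      rw [← e_int c]
      congr 1
      push_cast
      field_simp
    rw [h2]
    simp
  · have hz : e ((m : ℝ) / q) ≠ 1 := by
      intro h
      obtain ⟨n, hn⟩ := e_eq_one h
      apply hd
      refine ⟨n, ?_⟩
      rw [div_eq_iff hq'] at hn
      have : (m : ℝ) = ((q * n : ℤ) : ℝ) := by rw [hn]; push_cast; ring
      exact_mod_cast this
    rw [geom_sum_eq hz]
    have h2 : e ((m : ℝ) / q) ^ q = 1 := by
      rw [← e_nat_mul, ← e_int m]
      congr 1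
      field_simp
    rw [h2]
    simp

theorem ex : T_EX := ⟨norm_e, e_add, e_int, e_neg, e_sum⟩

/-- the orthogonality identity -/
theorem parseval {J : Type} (S : Finset J) (q : ℕ) (hq : 0 < q) (t : J → ℤ)
    (ht : ∀ i ∈ S, ∀ j ∈ S, (q : ℤ) ∣ t i - t j → i = j) (c : J → ℂ) :
    ∑ h ∈ range q, ‖∑ j ∈ S, e ((((h : ℤ) * t j : ℤ) : ℝ) / (q : ℝ)) * c j‖ ^ 2 =
      q * ∑ j ∈ S, ‖c j‖ ^ 2 := by
  classical
  have h1 : ∀ z : ℂ, ((‖z‖ ^ 2 : ℝ) : ℂ) = z * (starRingEnd ℂ) z := by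
    intro z
    rw [Complex.mul_conj, Complex.normSq_eq_norm_sq]
  have h2 : ((∑ h ∈ range q, ‖∑ j ∈ S, e ((((h : ℤ) * t j : ℤ) : ℝ) / (q : ℝ)) * c j‖ ^ 2 : ℝ) : ℂ)
      = ((q * ∑ j ∈ S, ‖c j‖ ^ 2 : ℝ) : ℂ) := by
    rw [Complex.ofReal_sum]
    simp_rw [h1, map_sum, sum_mul_sum, map_mul]
    rw [sum_comm]
    have h3 : ∀ i ∈ S, ∑ h ∈ range q, ∑ j ∈ S, (e ((((h : ℤ) * t i : ℤ) : ℝ) / (q : ℝ)) * c i *
        ((starRingEnd ℂ) (e ((((h : ℤ) * t j : ℤ) : ℝ) / (q : ℝ))) * (starRingEnd ℂ) (c j))) =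
        q * (‖c i‖ ^ 2 : ℝ) := by
      intro i hi
      rw [sum_comm]
      have h4 : ∀ j ∈ S, ∑ h ∈ range q, (e ((((h : ℤ) * t i : ℤ) : ℝ) / (q : ℝ)) * c i *
        ((starRingEnd ℂ) (e ((((h : ℤ) * t j : ℤ) : ℝ) / (q : ℝ))) * (starRingEnd ℂ) (c j))) =
        if i = j then q * (c i * (starRingEnd ℂ) (c j)) else 0 := by
        intro j hj
        have h5 : ∀ h ∈ range q, (e ((((h : ℤ) * t i : ℤ) : ℝ) / (q : ℝ)) * c i *
          ((starRingEnd ℂ) (e ((((h : ℤ) * t j : ℤ) : ℝ) / (q : ℝ))) * (starRingEnd ℂ) (c j))) =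
          e ((((h : ℤ) * (t i - t j) : ℤ) : ℝ) / (q : ℝ)) * (c i * (starRingEnd ℂ) (c j)) := by
          intro h _
          have h6 : e ((((h : ℤ) * (t i - t j) : ℤ) : ℝ) / (q : ℝ)) =
              e ((((h : ℤ) * t i : ℤ) : ℝ) / (q : ℝ)) *
              (starRingEnd ℂ) (e ((((h : ℤ) * t j : ℤ) : ℝ) / (q : ℝ))) := by
            rw [← e_neg, ← e_add]
            congr 1
            push_cast
            ring
          rw [h6]
          ring
        rw [sum_congr rfl h5, ← sum_mul, e_sum q _ hq]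
        by_cases hij : i = j
        · subst hij
          simp
        · rw [if_neg (fun hd => hij (ht i hi j hj hd)), if_neg hij, zero_mul]
      rw [sum_congr rfl h4, sum_ite_eq, if_pos hi, h1]
    rw [sum_congr rfl h3]
    push_cast
    rw [mul_sum]
  exact_mod_cast h2

theorem e_congr {q : ℕ} (hq : 0 < q) {m m' : ℤ} (h : (q : ℤ) ∣ m - m') :
    e ((m : ℝ) / (q : ℝ)) = e ((m' : ℝ) / (q : ℝ)) := by
  obtain ⟨c, hc⟩ := h
  have hq' : (q : ℝ) ≠ 0 := by positivity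
  have h1 : (m : ℝ) / q = (m' : ℝ) / q + (c : ℝ) := by
    have : (m : ℝ) = m' + q * c := by
      have : m = m' + q * c := by linarith
      exact_mod_cast this
    rw [this]
    field_simp
  rw [h1, e_add, e_int, mul_one]

theorem f1 (hCL : T_CL) : T_F1 := by
  intro p n hp ι Ω _ w R r F M hw hInv hM
  have hp1 : 1 < p := hp.one_lt
  have hp0 : 0 < p ^ n := pow_pos hp.pos _
  obtain ⟨-, -, -, c4, c5⟩ := hCL p hp1 ι R r
  have c5' : ∀ (E : Type) [AddCommMonoid E] (f : ι → E), ∑ i ∈ R, f i =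
      ∑ j ∈ range (p ^ n), ∑ i ∈ cls p R r n (j : ℤ), f i := by
    intro E _ f
    have h := c5 E f 0 n 0 (Nat.zero_le _)
    rw [c4] at h
    simpa using h
  -- identity for each h
  have key : ∀ h : ℕ, mo w F 1 R = ∑ ω, w ω *
      ‖∑ j ∈ range (p ^ n), e ((((h : ℤ) * (j : ℤ) : ℤ) : ℝ) / ((p ^ n : ℕ) : ℝ)) *
        bs F (cls p R r n (j : ℤ)) ω‖ ^ 2 := by
    intro h
    obtain ⟨T, hT, φ, hφ, hF⟩ := hInv (C (h : ℤ) * X) ((natDegree_C_mul_le _ _).trans natDegree_X_le)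
    unfold mo
    rw [← Equiv.sum_comp T]
    refine sum_congr rfl fun ω _ => ?_
    rw [hT]
    congr 1
    rw [show (2 * (1:ℝ)) = ((2:ℕ) : ℝ) by norm_num, Real.rpow_natCast]
    congr 1
    have h1 : bs F R (T ω) = φ ω * ∑ j ∈ range (p ^ n),
        e ((((h : ℤ) * (j : ℤ) : ℤ) : ℝ) / ((p ^ n : ℕ) : ℝ)) *
        bs F (cls p R r n (j : ℤ)) ω := by
      unfold bs
      rw [c5' ℂ (fun i => F i (T ω)), mul_sum]
      refine sum_congr rfl fun j _ => ?_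
      rw [mul_sum, mul_sum]
      refine sum_congr rfl fun i hi => ?_
      unfold cls at hi
      rw [mem_filter] at hi
      rw [hF i hi.1 ω]
      have h2 : e ((((C (h : ℤ) * X : ℤ[X]).eval (r i) : ℤ) : ℝ) / ((p ^ (1 * n) : ℕ) : ℝ)) =
          e ((((h : ℤ) * (j : ℤ) : ℤ) : ℝ) / ((p ^ n : ℕ) : ℝ)) := by
        rw [one_mul]
        apply e_congr hp0
        rw [eval_mul, eval_C, eval_X, ← mul_sub]
        push_cast
        exact Dvd.dvd.mul_left hi.2 _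
      rw [h2]
      ring
    rw [h1, norm_mul, hφ, one_mul]
  have hsum : ((p ^ n : ℕ) : ℝ) * mo w F 1 R = ((p ^ n : ℕ) : ℝ) *
      ∑ j ∈ range (p ^ n), mo w F 1 (cls p R r n (j : ℤ)) := by
    have h1 : ((p ^ n : ℕ) : ℝ) * mo w F 1 R = ∑ h ∈ range (p ^ n), mo w F 1 R := by
      rw [sum_const, card_range, nsmul_eq_mul]
    rw [h1, sum_congr rfl fun h _ => key h, sum_comm]
    simp_rw [← mul_sum]
    have h2 : ∀ ω : Ω, w ω * ∑ h ∈ range (p ^ n),
        ‖∑ j ∈ range (p ^ n), e ((((h : ℤ) * (j : ℤ) : ℤ) : ℝ) / ((p ^ n : ℕ) : ℝ)) *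
        bs F (cls p R r n (j : ℤ)) ω‖ ^ 2 = ((p ^ n : ℕ) : ℝ) * ∑ j ∈ range (p ^ n),
          w ω * ‖bs F (cls p R r n (j : ℤ)) ω‖ ^ 2 := by
      intro ω
      rw [parseval (range (p ^ n)) (p ^ n) hp0 (fun j => (j : ℤ)) ?_
        (fun j => bs F (cls p R r n (j : ℤ)) ω)]
      · rw [← mul_sum]; ring
      · intro i hi j hj hd
        rw [mem_range] at hi hj
        have h3 := Int.ModEq.symm (Int.modEq_iff_dvd.2 hd)
        have h4 : i ≡ j [MOD (p ^ n)] := (Int.natCast_modEq_iff).1 h3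
        exact Nat.ModEq.eq_of_lt_of_lt h4 hi hj
    rw [sum_congr rfl fun ω _ => h2 ω, ← mul_sum, sum_comm]
    congr 1
    refine sum_congr rfl fun j _ => ?_
    unfold mo
    refine sum_congr rfl fun ω _ => ?_
    rw [show (2 * (1:ℝ)) = ((2:ℕ) : ℝ) by norm_num, Real.rpow_natCast]
  have hq : (0:ℝ) < ((p ^ n : ℕ) : ℝ) := by exact_mod_cast hp0
  have h2 := mul_left_cancel₀ hq.ne' hsum
  rw [h2, one_mul, Real.rpow_one]
  have h5 : ∑ j ∈ range (p ^ n), mo w F 1 (cls p R r n (j : ℤ)) ≤ ∑ j ∈ range (p ^ n), M :=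
    sum_le_sum fun j _ => hM (j : ℤ)
  refine h5.trans (le_of_eq ?_)
  rw [sum_const, card_range, nsmul_eq_mul]
  push_cast
  rfl

theorem bo (hOR : T_OR) : T_BO := by
  intro p k n a a' b s M L x hp hkp hk ha haa' ha'n ha'k hbn ι Ω _ w R r F hInv hBL ξ η hne
  have hp0 : (0:ℝ) < p := by exact_mod_cast hp.pos
  have h1 := hOR p k (k * n) a a' b ξ η hp hkp hk ha haa' ha'k (Nat.mul_le_mul_left k hbn) hne
    ι Ω w R r F hInv (s - 1)
  rw [h1]
  have h2 : ∀ j ∈ range (p ^ (a' - a)),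
      mm w F (cls p R r a' (ξ + (p : ℤ) ^ a * (j : ℤ))) 1 (cls p R r b η) (s - 1) ≤
      Real.exp (L - x) * (((p : ℝ) ^ (n - a')) ^ (1:ℝ) * ((p : ℝ) ^ (n - b)) ^ (s - 1)) * M := by
    intro j _
    refine hBL _ _ ?_
    intro hd
    apply hne
    have h3 : (p : ℤ) ∣ (p : ℤ) ^ a * (j : ℤ) :=
      Dvd.dvd.mul_right (dvd_pow_self _ (by omega)) _
    have h4 := dvd_sub hd h3
    have h5 : ξ + (p : ℤ) ^ a * (j : ℤ) - η - (p : ℤ) ^ a * (j : ℤ) = ξ - η := by ring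
    rwa [h5] at h4
  refine (sum_le_sum h2).trans (le_of_eq ?_)
  rw [sum_const, card_range, nsmul_eq_mul, Real.rpow_one, Real.rpow_one]
  have h6 : (p : ℝ) ^ (n - a) = (p : ℝ) ^ (a' - a) * (p : ℝ) ^ (n - a') := by
    rw [← pow_add]; congr 1; omega
  rw [h6]
  push_cast
  ring

end Pool.Agent.H15.VM
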