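import Pool.Agent.H28.VM.Basic
import Pool.Agent.H15.VM.Decay

/-!
# Square membrane (MP_71a28e_an): module FIN
-/

set_option autoImplicit false

open MeasureTheory

namespace Pool.Agent.H15.VM

open Pool.Agent.H28.VM

/-- integral of an even compactly supported function over the quarter -/
theorem quarter {G : ℝ × ℝ → ℝ} (hG : Continuous G) (h1 : ∀ x y, G (-x, y) = G (x, y))
    (h2 : ∀ x y, G (x, -y) = G (x, y)) (h0 : ∀ z : ℝ × ℝ, (1.56 : ℝ) ^ 2 ≤ z.1 ^ 2 + z.2 ^ 2 →
      G z = 0) : ∫ z in QQ, G z = (1 / 4) * ∫ z, G z := by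
  have hcs : HasCompactSupport G := by
    refine HasCompactSupport.intro (isCompact_closedBall (0 : ℝ × ℝ) 2) ?_
    intro z hz
    rw [Metric.mem_closedBall, dist_zero_right, not_le, Prod.norm_def] at hz
    apply h0
    rcases lt_max_iff.1 hz with h | h
    · rw [Real.norm_eq_abs] at h
      nlinarith [sq_abs z.1, abs_nonneg z.1, sq_nonneg z.2]
    · rw [Real.norm_eq_abs] at h
      nlinarith [sq_abs z.2, abs_nonneg z.2, sq_nonneg z.1]
  have hint : Integrable G (volume.prod volume) := by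
    rw [← Measure.volume_eq_prod]; exact hG.integrable_of_hasCompactSupport hcs
  have a1 : ∀ x y : ℝ, G (x, |y|) = G (x, y) := by
    intro x y
    rcases abs_choice y with h | h <;> rw [h]
    exact h2 x y
  have a2 : ∀ x y : ℝ, G (|x|, y) = G (x, y) := by
    intro x y
    rcases abs_choice x with h | h <;> rw [h]
    exact h1 x y
  have e1 : ∫ z, G z = 4 * ∫ z in Set.Ioi (0 : ℝ) ×ˢ Set.Ioi (0 : ℝ), G z := by
    rw [Measure.volume_eq_prod, integral_prod _ hint, setIntegral_prod _ hint.integrableOn]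
    have e2 : ∀ x : ℝ, ∫ y, G (x, y) = 2 * ∫ y in Set.Ioi (0 : ℝ), G (x, y) := by
      intro x
      rw [← integral_comp_abs (f := fun y => G (x, y))]
      exact integral_congr_ae (Filter.Eventually.of_forall fun y => (a1 x y).symm)
    simp_rw [e2]
    have e3 : ∀ x : ℝ, (2 * ∫ y in Set.Ioi (0 : ℝ), G (x, y)) =
        (fun x => 2 * ∫ y in Set.Ioi (0 : ℝ), G (x, y)) |x| := by
      intro x
      simp only [a2]
    rw [integral_congr_ae (Filter.Eventually.of_forall e3)]
    rw [integral_comp_abs (f := fun x => 2 * ∫ y in Set.Ioi (0 : ℝ), G (x, y)),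
      integral_const_mul]
    ring
  have e4 : ∫ z in Set.Ioi (0 : ℝ) ×ˢ Set.Ioi (0 : ℝ), G z = ∫ z in QQ, G z := by
    refine (setIntegral_eq_of_subset_of_forall_sdiff_eq_zero
      (measurableSet_Ioi.prod measurableSet_Ioi) ?_ ?_)
    · exact Set.prod_mono Set.Ioo_subset_Ioi_self Set.Ioo_subset_Ioi_self
    · rintro z ⟨hz, hz'⟩
      apply h0
      rw [Set.mem_prod, Set.mem_Ioi, Set.mem_Ioi] at hz
      have hp : (3.14 : ℝ) < Real.pi := Real.pi_gt_d2
      have : Real.pi / 2 ≤ z.1 ∨ Real.pi / 2 ≤ z.2 := by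
        by_contra hcon
        push Not at hcon
        exact hz' ⟨⟨hz.1, hcon.1⟩, ⟨hz.2, hcon.2⟩⟩
      rcases this with h | h
      · nlinarith [sq_nonneg z.2]
      · nlinarith [sq_nonneg z.1]
  rw [← e4, e1]; ring

/-- the weight -/
noncomputable def gw (h : ℝ → ℝ) (z : ℝ × ℝ) : ℝ :=
  h (z.1 ^ 2 + z.2 ^ 2) * (Real.sin z.1 * Real.sin z.2)

theorem gw_cont {h : ℝ → ℝ} (hh : Cut h) : Continuous (gw h) := by
  have := hh.smooth.continuous
  unfold gw; fun_prop

theorem gw_zero {h : ℝ → ℝ} (hh : Cut h) (z : ℝ × ℝ) (hz : (1.56 : ℝ) ^ 2 ≤ z.1 ^ 2 + z.2 ^ 2) :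
    gw h z = 0 := by rw [gw, hh.zero _ hz, zero_mul]

theorem cs_of_zero {E : Type*} [NormedAddCommGroup E] {G : ℝ × ℝ → E}
    (h0 : ∀ z : ℝ × ℝ, (1.56 : ℝ) ^ 2 ≤ z.1 ^ 2 + z.2 ^ 2 → G z = 0) : HasCompactSupport G := by
  refine HasCompactSupport.intro (isCompact_closedBall (0 : ℝ × ℝ) 2) ?_
  intro z hz
  rw [Metric.mem_closedBall, dist_zero_right, not_le, Prod.norm_def] at hz
  apply h0
  rcases lt_max_iff.1 hz with h | h
  · rw [Real.norm_eq_abs] at h
    nlinarith [sq_abs z.1, abs_nonneg z.1, sq_nonneg z.2]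
  · rw [Real.norm_eq_abs] at h
    nlinarith [sq_abs z.2, abs_nonneg z.2, sq_nonneg z.1]

theorem u_odd1 {c : ℤ × ℤ → ℂ} (hc : Coef c) (t x y : ℝ) : u c t (-x, y) = -u c t (x, y) := by
  have e : v c t (-x, y) = -v c t (x, y) := by
    unfold v
    let σ : ℤ × ℤ ≃ ℤ × ℤ := (Equiv.neg ℤ).prodCongr (Equiv.refl ℤ)
    rw [← σ.tsum_eq, ← tsum_neg]
    refine tsum_congr fun k => ?_
    have e1 : σ k = (-k.1, k.2) := rfl
    have e2 : nm (-k.1, k.2) = nm k := by simp [nm]
    rw [e1, hc.odd1, e2]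
    have e3 : dt (-k.1, k.2) (-x, y) = dt k (x, y) := by simp [dt]
    rw [e3]; ring
  rw [u, u, e, Complex.neg_re]; ring

theorem u_odd2 {c : ℤ × ℤ → ℂ} (hc : Coef c) (t x y : ℝ) : u c t (x, -y) = -u c t (x, y) := by
  have e : v c t (x, -y) = -v c t (x, y) := by
    unfold v
    let σ : ℤ × ℤ ≃ ℤ × ℤ := (Equiv.refl ℤ).prodCongr (Equiv.neg ℤ)
    rw [← σ.tsum_eq, ← tsum_neg]
    refine tsum_congr fun k => ?_
    have e1 : σ k = (k.1, -k.2) := rfl
    have e2 : nm (k.1, -k.2) = nm k := by simp [nm]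
    rw [e1, hc.odd2, e2]
    have e3 : dt (k.1, -k.2) (x, -y) = dt k (x, y) := by simp [dt]
    rw [e3]; ring
  rw [u, u, e, Complex.neg_re]; ring

theorem sin_sin (k : ℤ × ℤ) (z : ℝ × ℝ) :
    ((Real.sin z.1 * Real.sin z.2 : ℝ) : ℂ) * ee (dt k z) =
      -(1 / 4) * (ee (dt (k - (-1, -1)) z) - ee (dt (k - (-1, 1)) z) - ee (dt (k - (1, -1)) z) +
        ee (dt (k - (1, 1)) z)) := by
  have d : ∀ a b : ℤ, ee (dt (k - (a, b)) z) = ee (dt k z) * (ee (-(a * z.1)) * ee (-(b * z.2))) := by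
    intro a b
    rw [← ee_add, ← ee_add]
    congr 1
    simp only [dt, Prod.fst_sub, Prod.snd_sub]
    push_cast; ring
  rw [d, d, d, d]
  have e : ∀ x : ℝ, ee x = Complex.cos x + Complex.sin x * Complex.I := by
    intro x; rw [ee, Complex.exp_mul_I]
  simp only [Int.cast_neg, Int.cast_one, neg_mul, one_mul, neg_neg]
  rw [e z.1, e z.2, e (-z.1), e (-z.2)]
  push_cast
  rw [Complex.cos_neg, Complex.cos_neg, Complex.sin_neg, Complex.sin_neg]
  linear_combination ((ee (dt k z)) * Complex.sin z.1 * Complex.sin z.2) * Complex.I_sq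

theorem int_gw {h : ℝ → ℝ} (hh : Cut h) (k : ℤ × ℤ) :
    ∫ z : ℝ × ℝ, ((gw h z : ℝ) : ℂ) * ee (dt k z) =
      -(1 / 4) * (ft h (k - (-1, -1)) - ft h (k - (-1, 1)) - ft h (k - (1, -1)) +
        ft h (k - (1, 1))) := by
  have hc := hh.smooth.continuous
  have hi : ∀ k : ℤ × ℤ, Integrable fun z : ℝ × ℝ => (h (z.1 ^ 2 + z.2 ^ 2) : ℂ) * ee (dt k z) := by
    intro k
    refine Continuous.integrable_of_hasCompactSupport ?_ (cs_of_zero fun z hz => ?_)
    · unfold dt; fun_prop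
    · rw [hh.zero _ hz]; simp
  have q : ∀ A B D E : ℝ × ℝ → ℂ, Integrable A → Integrable B → Integrable D → Integrable E →
      (∫ z, A z) - (∫ z, B z) - (∫ z, D z) + (∫ z, E z) = ∫ z, (A z - B z - D z + E z) := by
    intro A B D E hA hB hD hE
    have x1 : ∫ z, (A z - B z) = (∫ z, A z) - ∫ z, B z := integral_sub hA hB
    have x2 : ∫ z, (A z - B z - D z) = (∫ z, (A z - B z)) - ∫ z, D z :=
      integral_sub (hA.sub hB) hD
    have x3 : ∫ z, (A z - B z - D z + E z) = (∫ z, (A z - B z - D z)) + ∫ z, E z :=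
      integral_add ((hA.sub hB).sub hD) hE
    rw [x3, x2, x1]
  rw [ft, ft, ft, ft, q _ _ _ _ (hi _) (hi _) (hi _) (hi _), ← integral_const_mul]
  refine integral_congr_ae (Filter.Eventually.of_forall fun z => ?_)
  have := sin_sin k z
  simp only [gw]
  rw [Complex.ofReal_mul, mul_assoc, this]
  ring

theorem int_gw_v {h : ℝ → ℝ} (hh : Cut h) {c : ℤ × ℤ → ℂ} (hc : Summable fun k => ‖c k‖) (t : ℝ) :
    ∫ z : ℝ × ℝ, ((gw h z : ℝ) : ℂ) * v c t z =
      ∑' k, c k * ee (-(nm k * t)) * ∫ z : ℝ × ℝ, ((gw h z : ℝ) : ℂ) * ee (dt k z) := by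
  have hcs : HasCompactSupport (gw h) := cs_of_zero (gw_zero hh)
  have hgi : Integrable (gw h) := (gw_cont hh).integrable_of_hasCompactSupport hcs
  have hF : ∀ k : ℤ × ℤ, Integrable fun z : ℝ × ℝ =>
      ((gw h z : ℝ) : ℂ) * (c k * ee (dt k z - nm k * t)) := by
    intro k
    refine Continuous.integrable_of_hasCompactSupport ?_ (cs_of_zero fun z hz => ?_)
    · have := gw_cont hh
      unfold dt; fun_prop
    · rw [gw_zero hh z hz]; simp
  have hs : Summable fun k : ℤ × ℤ => ∫ z : ℝ × ℝ,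
      ‖((gw h z : ℝ) : ℂ) * (c k * ee (dt k z - nm k * t))‖ := by
    have : ∀ k : ℤ × ℤ, ∫ z : ℝ × ℝ, ‖((gw h z : ℝ) : ℂ) * (c k * ee (dt k z - nm k * t))‖ =
        ‖c k‖ * ∫ z, ‖gw h z‖ := by
      intro k
      rw [← integral_const_mul]
      refine integral_congr_ae (Filter.Eventually.of_forall fun z => ?_)
      simp only [norm_mul, norm_ee, Complex.norm_real, mul_one]
      ring
    simp_rw [this]
    exact hc.mul_right _
  have key := (hasSum_integral_of_summable_integral_norm hF hs).tsum_eq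
  have e1 : ∫ z : ℝ × ℝ, ((gw h z : ℝ) : ℂ) * v c t z =
      ∫ z : ℝ × ℝ, ∑' k, ((gw h z : ℝ) : ℂ) * (c k * ee (dt k z - nm k * t)) := by
    refine integral_congr_ae (Filter.Eventually.of_forall fun z => ?_)
    simp only [v]
    rw [tsum_mul_left]
  rw [e1, ← key]
  refine tsum_congr fun k => ?_
  rw [← integral_const_mul]
  refine integral_congr_ae (Filter.Eventually.of_forall fun z => ?_)
  simp only
  rw [ee_sub]; ring

theorem fin (hHP : T_HP) : T_fin := by
  intro L hL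
  obtain ⟨ε₁, hε₁, H⟩ := hHP L hL
  refine ⟨ε₁, hε₁, fun h hh => ?_⟩
  obtain ⟨C, Λ₀, hC, hΛ₀, H2⟩ := H h hh
  refine ⟨C, max Λ₀ 16000, hC, le_max_of_le_left hΛ₀, ?_⟩
  intro ε hε hε' T ρ c N M hρ hc hlow hNB hMB t ht
  have hρ1 : Λ₀ ≤ ρ := (le_max_left _ _).trans hρ
  have hρ2 : (16000 : ℝ) ≤ ρ := (le_max_right _ _).trans hρ
  -- the four sums
  have hS : ∀ a b : ℤ, a ^ 2 = 1 → b ^ 2 = 1 →
      ‖∑' k, c k * ee (-(nm k * t)) * ft h (k - (a, b))‖ ≤ C / ρ * (N + M) := by
    intro a b ha hb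
    have hk1 : 8000 * nm (a, b) ≤ ρ := by
      have : nm (a, b) ≤ 2 := by
        apply Real.sqrt_le_iff.mpr
        refine ⟨by norm_num, ?_⟩
        have ha' : (a : ℝ) ^ 2 = 1 := by exact_mod_cast ha
        have hb' : (b : ℝ) ^ 2 = 1 := by exact_mod_cast hb
        simp only [ha', hb']; norm_num
      linarith
    have := H2 ε hε hε' T ρ c N M hc.sum hNB hMB ρ hρ1 le_rfl (a, b) hk1 t ht
    refine le_trans (le_of_eq ?_) this
    congr 1
    refine tsum_congr fun k => ?_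
    by_cases hk : k ∈ High ρ
    · rw [Set.indicator_of_mem hk]
    · rw [Set.indicator_of_notMem hk, hlow k, zero_mul, zero_mul]
      by_contra hcon
      rw [not_lt] at hcon
      apply hk
      by_contra hnot
      simp only [High, Set.mem_ofPred_eq, not_exists, not_and, not_lt] at hnot
      have n1 : nm (1, 0) = 1 := by simp [nm]
      have n2 : nm (0, 1) = 1 := by simp [nm]
      have c1 := hnot (1, 0) (by simp [WW])
      have c2 := hnot (0, 1) (by simp [WW])
      rw [n1, mul_one] at c1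
      rw [n2, mul_one] at c2
      simp only [pe, mul_one, mul_zero, sub_zero, zero_sub, abs_neg] at c1 c2
      push_cast at c1 c2
      have e := nm_sq k
      have q1 : (k.2 : ℝ) ^ 2 ≤ ρ ^ 2 := by
        rw [← sq_abs]; exact pow_le_pow_left₀ (abs_nonneg _) c1 2
      have q2 : (k.1 : ℝ) ^ 2 ≤ ρ ^ 2 := by
        rw [← sq_abs]; exact pow_le_pow_left₀ (abs_nonneg _) c2 2
      nlinarith
  have hsum : ∀ e : ℤ × ℤ, Summable fun k => c k * ee (-(nm k * t)) * ft h (k - e) := by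
    intro e
    obtain ⟨D, hD⟩ := decay h hh 0
    refine Summable.of_norm_bounded (g := fun k => ‖c k‖ * D) (hc.sum.mul_right D) fun k => ?_
    rw [norm_mul, norm_mul, norm_ee, mul_one]
    have := hD (k - e)
    rw [pow_zero, mul_one] at this
    gcongr
  -- the observed quantity
  have hG : mm h c t = (1 / 4) * ∫ z, gw h z * u c t z := by
    have hcont : Continuous fun z : ℝ × ℝ => gw h z * u c t z :=
      (gw_cont hh).mul ((continuous_u hc.sum).comp (continuous_const.prodMk continuous_id))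
    have := quarter (G := fun z => gw h z * u c t z) hcont
      (fun x y => by
        simp only [gw, u_odd1 hc, Real.sin_neg, neg_sq]; ring)
      (fun x y => by
        simp only [gw, u_odd2 hc, Real.sin_neg, neg_sq]; ring)
      (fun z hz => by simp only [gw_zero hh z hz, zero_mul])
    rw [← this]; rfl
  have hI : ∫ z, gw h z * u c t z = 2 * (∫ z : ℝ × ℝ, ((gw h z : ℝ) : ℂ) * v c t z).re := by
    have hcv : Continuous fun z : ℝ × ℝ => v c t z :=
      (continuous_v hc.sum).comp (continuous_const.prodMk continuous_id)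
    have hint : Integrable fun z : ℝ × ℝ => ((gw h z : ℝ) : ℂ) * v c t z := by
      refine Continuous.integrable_of_hasCompactSupport ?_ (cs_of_zero fun z hz => ?_)
      · have := gw_cont hh
        fun_prop
      · rw [gw_zero hh z hz]; simp
    have e := integral_re hint
    rw [show (∫ z : ℝ × ℝ, ((gw h z : ℝ) : ℂ) * v c t z).re =
      RCLike.re (∫ z : ℝ × ℝ, ((gw h z : ℝ) : ℂ) * v c t z) from rfl, ← e, ← integral_const_mul]
    refine integral_congr_ae (Filter.Eventually.of_forall fun z => ?_)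
    simp only [u, RCLike.re_eq_complex_re, Complex.re_ofReal_mul]
    ring
  have hV : ∫ z : ℝ × ℝ, ((gw h z : ℝ) : ℂ) * v c t z =
      -(1 / 4) * ((∑' k, c k * ee (-(nm k * t)) * ft h (k - (-1, -1))) -
        (∑' k, c k * ee (-(nm k * t)) * ft h (k - (-1, 1))) -
        (∑' k, c k * ee (-(nm k * t)) * ft h (k - (1, -1))) +
        ∑' k, c k * ee (-(nm k * t)) * ft h (k - (1, 1))) := by
    rw [int_gw_v hh hc.sum, ← (hsum _).tsum_sub (hsum _),
      ← ((hsum _).sub (hsum _)).tsum_sub (hsum _),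
      ← (((hsum _).sub (hsum _)).sub (hsum _)).tsum_add (hsum _), ← tsum_mul_left]
    refine tsum_congr fun k => ?_
    rw [int_gw hh]; ring
  have hn : ‖∫ z : ℝ × ℝ, ((gw h z : ℝ) : ℂ) * v c t z‖ ≤ C / ρ * (N + M) := by
    rw [hV, norm_mul]
    have q : ‖(-(1 / 4) : ℂ)‖ = 1 / 4 := by norm_num
    rw [q]
    have w1 := hS (-1) (-1) (by norm_num) (by norm_num)
    have w2 := hS (-1) 1 (by norm_num) (by norm_num)
    have w3 := hS 1 (-1) (by norm_num) (by norm_num)
    have w4 := hS 1 1 (by norm_num) (by norm_num)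
    have := norm_add_le ((∑' k, c k * ee (-(nm k * t)) * ft h (k - (-1, -1))) -
        (∑' k, c k * ee (-(nm k * t)) * ft h (k - (-1, 1))) -
        (∑' k, c k * ee (-(nm k * t)) * ft h (k - (1, -1))))
        (∑' k, c k * ee (-(nm k * t)) * ft h (k - (1, 1)))
    have t2 := norm_sub_le ((∑' k, c k * ee (-(nm k * t)) * ft h (k - (-1, -1))) -
        (∑' k, c k * ee (-(nm k * t)) * ft h (k - (-1, 1))))
        (∑' k, c k * ee (-(nm k * t)) * ft h (k - (1, -1)))
    have t3 := norm_sub_le (∑' k, c k * ee (-(nm k * t)) * ft h (k - (-1, -1)))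
        (∑' k, c k * ee (-(nm k * t)) * ft h (k - (-1, 1)))
    linarith
  rw [hG, hI]
  have hre := Complex.abs_re_le_norm (∫ z : ℝ × ℝ, ((gw h z : ℝ) : ℂ) * v c t z)
  rw [abs_mul, abs_mul]
  have : |(1 / 4 : ℝ)| = 1 / 4 := by norm_num
  rw [this, abs_two]
  have hpos : 0 ≤ C / ρ * (N + M) := (norm_nonneg _).trans hn
  linarith

end Pool.Agent.H15.VM
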